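import Pool.Agent.Helper32.Hw.H2

/-! Packet H11 (MP_d3128a_ag, helper43): the last rows, too few conditions. -/

set_option autoImplicit false

namespace Pool.Agent.Helper43.Hw.PkH11

open Finset
open Pool.Agent.Helper43.Gm (st mv nn Run Pri)
open Pool.Agent.Helper43.Hw.PkH2 (va_lt va_eq sum_na kmono xinc)

variable {μ R N : ℕ} {κ x : ℕ → ℕ}

/-- `κ` reaches `N` at the row `r` after exact rows. -/
def Fi (μ R N : ℕ) (κ x : ℕ → ℕ) (r : ℕ) : Prop :=
  r < R ∧ κ r = N ∧ (∀ z < r, lz μ R N κ x z = z + 1) ∧ lz μ R N κ x r ≤ r + 1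

theorem kN (hp : Play μ R N κ x) {r z : ℕ} (hr : κ r = N) (hrz : r ≤ z) (hz : z < R) : κ z = N :=
  le_antisymm (hp.le z hz) (hr ▸ kmono hp hrz hz)

/-- After `κ = N` the loads do not increase. -/
theorem tail (h4 : GoalH4) (hμ : 1 ≤ μ) (hR : μ + 2 ≤ R) (hp : Play μ R N κ x) {r : ℕ}
    (h : Fi μ R N κ x r) : ∀ z < R, lz μ R N κ x z ≤ z + 1 := by
  obtain ⟨hr, hκ, hex, hl⟩ := h
  have h1 : ∀ z, r ≤ z → z < R → lz μ R N κ x z ≤ r + 1 := by
    intro z hz
    induction z, hz using Nat.le_induction with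
    | base => intro _; exact hl
    | succ z hz ih =>
      intro hzR
      have e1 := ((h4 μ R N κ x hμ hR hp z hzR).2.2.1) (kN hp hκ hz (by omega))
      have e2 := ih (by omega)
      omega
  intro z hz
  rcases Nat.lt_or_ge z r with h | h
  · exact (hex z h).le
  · exact (h1 z h hz).trans (by omega)

/-- One step of the greedy play, if the next load is small. -/
theorem step (hp : Play μ R N κ x) (hg : Greedy μ R N κ x) {y : ℕ} (hy2 : y + 2 < R)
    (hex : Exact μ R N κ x y) (hbb : bb μ R N κ x y ≤ y + 2) :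
    Exact μ R N κ x (y + 1) ∨ Fi μ R N κ x (y + 1) := by
  obtain ⟨hyR, hκN, hlz⟩ := hex
  have hle := hp.le (y + 1) (by omega)
  have hlz' : ∀ z < y + 1, lz μ R N κ x z = z + 1 := fun z hz => hlz z (by omega)
  have key : lz μ R N κ x (y + 1) = y + 2 ∨ (κ (y + 1) = N ∧ lz μ R N κ x (y + 1) ≤ y + 2) := by
    rcases hg.2 y hy2 hκN with ⟨h1, h2, -⟩ | ⟨-, h⟩
    · left
      omega
    · exact h
  rcases key with h | ⟨h, h'⟩
  · rcases Nat.lt_or_ge (κ (y + 1)) N with hN | hN
    · left
      refine ⟨by omega, hN, fun z hz => ?_⟩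
      rcases Nat.lt_or_ge z (y + 1) with hz' | hz'
      · exact hlz' z hz'
      · have : z = y + 1 := by omega
        rw [this, h]
    · right
      exact ⟨by omega, le_antisymm hle hN, hlz', by omega⟩
  · right
    exact ⟨by omega, h, hlz', by omega⟩

/-- The sum of the loads of exact rows. -/
theorem sum_exact {m : ℕ} (h : ∀ z < m, lz μ R N κ x z = z + 1) :
    ∑ z ∈ range m, lz μ R N κ x z = T m := by
  induction m with
  | zero => simp [T_zero]
  | succ m ih =>
    rw [Finset.sum_range_succ, ih fun z hz => h z (by omega), h m (by omega), T_succ]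

/-- The load of the next row if nothing is done, in the zone. -/
theorem bb_zone (h4 : GoalH4) (hμ : 1 ≤ μ) (hR : μ + 2 ≤ R) (hp : Play μ R N κ x) {y : ℕ}
    (hy2 : y + 1 < R) (hy : R ≤ y + 1 + μ) (hex : Exact μ R N κ x y) :
    bb μ R N κ x y + oo μ R κ x y + sk μ κ x y = y + 2 + (N - 1 - κ y) := by
  obtain ⟨hyR, hκN, hlz⟩ := hex
  have e1 := (h4 μ R N κ x hμ hR hp y hy2).2.2.2.1 hκN
  rw [hlz y le_rfl] at e1
  have e2 : na μ R (y + 1) = na μ R y + 1 := by unfold na; omega
  have e3 : nx μ R x y = x y + 1 := by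
    unfold nx
    by_cases h : 0 < x y
    · rw [if_pos h]
    · rw [if_neg h, e2]
      have := hp.nat y hyR hκN
      omega
  rw [e2, e3, Nat.mul_add, Nat.mul_one] at e1
  omega

theorem goalH11 (h1 : GoalH1) (h2 : GoalH2) (h3 : GoalH3) (h4 : GoalH4) : GoalH11 := by
  intro μ R N k κ x y hμ hR hp hg hex hy hy2 hac hk hW
  obtain ⟨g1, g2, g3, g4, g5, g6, g7⟩ := h1 μ R N κ x hμ hR hp
  obtain ⟨w1, hw1⟩ : ∃ w1, w1 = R - 1 - y := ⟨_, rfl⟩
  rw [← hw1] at hW
  have main : ∀ y', y ≤ y' → y' + 2 ≤ R → Exact μ R N κ x y' ∨ ∃ r, Fi μ R N κ x r := by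
    intro y' hyy
    induction y', hyy using Nat.le_induction with
    | base => intro _; exact Or.inl hex
    | succ y' hyy ih =>
      intro hy'
      rcases ih (by omega) with hex' | h
      swap
      · exact Or.inr h
      obtain ⟨hyR', hκN', hlz'⟩ := hex'
      have hac' : R - 1 - μ < ac R κ x (κ y') ∧ y' ≤ ac R κ x (κ y') + (k + (y' - y)) := by
        rcases eq_or_lt_of_le (kmono hp hyy hyR') with h | h
        · rw [← h]
          exact ⟨hac, by omega⟩
        · have e1 : y < ac R κ x (κ y') := by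
            refine ((g1 (κ y') y (by omega)).2).1 ?_
            unfold aa
            split_ifs <;> omega
          exact ⟨by omega, by omega⟩
      have e1 := (h3 μ R N κ x y' hμ hR hp ⟨hyR', hκN', hlz'⟩ (by omega)).2.1 hac'.1
      obtain ⟨w', hw'⟩ : ∃ w', w' = R - 1 - y' := ⟨_, rfl⟩
      have hww : w1 = w' + (y' - y) := by omega
      rw [← hw'] at e1
      -- the pending skips
      have hSd : Sd μ R κ x y' ≤ w' * (Pn μ R x y + (y' - y)) := by
        unfold Sd
        rw [← hw']
        have a1 : ∑ t ∈ (range y').filter (fun t => κ t < κ y' ∧ 0 < x t ∧ U μ R x t ≤ w'),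
            U μ R x t ≤ ∑ t ∈ (range y').filter (fun t => 0 < x t ∧ 0 < U μ R x t ∧
              U μ R x t ≤ w'), U μ R x t := by
          rw [Finset.sum_filter, Finset.sum_filter]
          refine Finset.sum_le_sum fun t _ => ?_
          by_cases h : κ t < κ y' ∧ 0 < x t ∧ U μ R x t ≤ w'
          · rw [if_pos h]
            by_cases h' : 0 < U μ R x t
            · rw [if_pos ⟨h.2.1, h', h.2.2⟩]
            · omega
          · rw [if_neg h]
            exact Nat.zero_le _
        refine a1.trans ?_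
        have a2 : ∑ t ∈ (range y').filter (fun t => 0 < x t ∧ 0 < U μ R x t ∧ U μ R x t ≤ w'),
            U μ R x t ≤ ((range y').filter (fun t => 0 < x t ∧ 0 < U μ R x t ∧
              U μ R x t ≤ w')).card * w' := by
          rw [← smul_eq_mul]
          exact Finset.sum_le_card_nsmul _ _ _ fun t ht => (mem_filter.1 ht).2.2.2
        refine a2.trans ?_
        rw [Nat.mul_comm]
        refine Nat.mul_le_mul_left _ ?_
        have a3 : (range y').filter (fun t => 0 < x t ∧ 0 < U μ R x t ∧ U μ R x t ≤ w') ⊆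
            (range y).filter (fun t => 0 < x t ∧ 0 < U μ R x t ∧ U μ R x t ≤ R - 1 - y) ∪
            Ico y y' := by
          intro t ht
          simp only [mem_filter, mem_range, mem_union, mem_Ico] at ht ⊢
          rcases Nat.lt_or_ge t y with h | h
          · exact Or.inl ⟨h, ht.2.1, ht.2.2.1, by omega⟩
          · exact Or.inr ⟨h, ht.1⟩
        refine (Finset.card_le_card a3).trans ((Finset.card_union_le _ _).trans ?_)
        rw [Nat.card_Ico]
        rfl
      have hx : x y' - na μ R y' ≤ w' := by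
        have := hp.lt y' (by omega)
        unfold na
        omega
      have hprod : (R - y' + (y' - ac R κ x (κ y'))) * (x y' - na μ R y') ≤
          (w' + 1 + (k + (y' - y))) * w' := by
        refine Nat.mul_le_mul ?_ hx
        omega
      have hpos : 0 < ((oo μ R κ x y' : ℤ) - (N - 1 - κ y' : ℕ)) * T w' := by
        refine lt_of_lt_of_le ?_ e1
        obtain ⟨d, hd⟩ : ∃ d, d = y' - y := ⟨_, rfl⟩
        rw [← hd] at hww hSd hprod
        have b1 : (Sd μ R κ x y' : ℤ) ≤ w' * (Pn μ R x y + d) := by exact_mod_cast hSd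
        have b2 : ((R - y' + (y' - ac R κ x (κ y')) : ℕ) : ℤ) * (x y' - na μ R y' : ℕ) ≤
            (w' + 1 + (k + d)) * w' := by exact_mod_cast hprod
        have b3 : (N : ℤ) * T μ + w1 * (Pn μ R x y + k + 5 * w1 + 2) < T R := by
          exact_mod_cast hW
        have b4 : (w1 : ℤ) = w' + d := by exact_mod_cast hww
        have b5 : (0 : ℤ) ≤ Dd μ R κ x y' := by positivity
        rw [b4] at b3
        have b6 : (0 : ℤ) ≤ d * (Pn μ R x y + k) := by positivity
        have b7 : (0 : ℤ) ≤ (w' : ℤ) * d := by positivity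
        have b8 : (0 : ℤ) ≤ (w' : ℤ) * w' := by positivity
        have b9 : (0 : ℤ) ≤ (d : ℤ) * d := by positivity
        have b10 : (0 : ℤ) ≤ (w' : ℤ) := by positivity
        have b11 : (0 : ℤ) ≤ (d : ℤ) := by positivity
        nlinarith
      have hoo : N - 1 - κ y' < oo μ R κ x y' := by
        have c1 : (0 : ℤ) ≤ T w' := by positivity
        by_contra hcon
        have c2 : ((oo μ R κ x y' : ℤ) - (N - 1 - κ y' : ℕ)) ≤ 0 := by omega
        exact absurd hpos (not_lt.2 (mul_nonpos_of_nonpos_of_nonneg c2 c1))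
      have hbb := bb_zone h4 hμ hR hp (show y' + 1 < R by omega) (by omega)
        ⟨hyR', hκN', hlz'⟩
      rcases step hp hg (by omega) ⟨hyR', hκN', hlz'⟩ (by omega) with h | h
      · exact Or.inl h
      · exact Or.inr ⟨_, h⟩
  rcases main (R - 2) (by omega) (by omega) with h | ⟨r, h⟩
  · obtain ⟨-, -, hlz⟩ := h
    have e1 := (h2 μ R N κ x hμ hR hp).2.2.2
    have e2 : ∑ z ∈ range R, lz μ R N κ x z = T (R - 1) + lz μ R N κ x (R - 1) := by
      have e3 : R = (R - 1) + 1 := by omega
      conv_lhs => rw [e3]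
      rw [Finset.sum_range_succ]
      rw [show R - 1 + 1 = R by omega]
      rw [sum_exact fun z hz => hlz z (by omega)]
    have e4 : T R = T (R - 1) + R := by
      have := T_succ (R - 1)
      rw [show R - 1 + 1 = R by omega] at this
      exact this
    intro z hz
    rcases Nat.lt_or_ge z (R - 1) with h | h
    · exact (hlz z (by omega)).le
    · have : z = R - 1 := by omega
      rw [this]
      have e5 : N * T μ < T R := lt_of_le_of_lt (Nat.le_add_right _ _) hW
      omega
  · exact tail h4 hμ hR hp h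

end Pool.Agent.Helper43.Hw.PkH11
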