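import Pool.Agent.Helper32.Hw.H11

/-! Packet H15 (MP_d3128a_ag, helper43): the game theorem. -/

set_option autoImplicit false

namespace Pool.Agent.Helper43.Hw.PkH15

open Finset
open Pool.Agent.Helper43.Gm (st mv nn Run Pri)
open Pool.Agent.Helper43.Hw.PkH2 (va_lt va_eq sum_na kmono xinc)
open Pool.Agent.Helper43.Hw.PkH11 (Fi tail step sum_exact bb_zone)

variable {μ R N : ℕ} {κ x : ℕ → ℕ}

theorem sum_T (m : ℕ) : ∑ z ∈ range m, (z + 1) = T m := by
  induction m with
  | zero => simp [T_zero]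
  | succ m ih => rw [Finset.sum_range_succ, ih, T_succ]

theorem goalH15 (_h1 : GoalH1) (h2 : GoalH2) (h4 : GoalH4) (h5 : GoalH5) (h10 : GoalH10)
    (h11 : GoalH11) (h12 : GoalH12) : GoalH15 := by
  intro μ R N l L w hμ hN hl hlo hhi hbig hL hw1 hw2 hwμ hw3 hw4
  have hR : μ + 2 ≤ R := by omega
  obtain ⟨κ, x, hp, hg⟩ := h5 μ R N hμ hR hN
  refine ⟨κ, x, hp, ?_⟩
  have hL1 : 1 ≤ L := by
    rcases Nat.eq_zero_or_pos L with h | h
    · rw [h] at hL
      omega
    · exact h
  have hlL : l ≤ l * L := Nat.le_mul_of_pos_right l hL1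
  have hw0 : 1500000 * l ≤ w := by
    have : 1500000 * l ≤ 1500000 * l * L := Nat.le_mul_of_pos_right _ hL1
    omega
  -- the first case
  have hfirst : (∃ r, Fi μ R N κ x r) → N * T μ ≤ T R ∧ ∀ z < R, lz μ R N κ x z ≤ z + 1 := by
    rintro ⟨r, hr⟩
    have e1 := tail h4 hμ hR hp hr
    refine ⟨?_, e1⟩
    rw [← (h2 μ R N κ x hμ hR hp).2.2.2, ← sum_T]
    exact Finset.sum_le_sum fun z hz => e1 z (mem_range.1 hz)
  have hzon : ∀ y, y + w + 1 ≤ R → R ≤ y + 1 + μ → Exact μ R N κ x y →
      (∀ z < y, R ≤ z + 1 + μ →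
        (R - 1 - z) + 24 * l * (N - 1 - κ z) ≤ 24 * l * oo μ R κ x z) →
      Zon μ R N l L κ x y := by
    intro y hy hz hex hih
    have hwy : w ≤ R - 1 - y := by omega
    refine ⟨hμ, hl, hlo, hhi, hbig, hL, hp, hex, hz, by omega, hw1.trans hwy,
      hw2.trans (Nat.pow_le_pow_left hwy 2), hw3.trans ?_, hih⟩
    have : (w : ℤ) ≤ ((R - 1 - y : ℕ) : ℤ) := by exact_mod_cast hwy
    exact pow_le_pow_left₀ (by positivity) this 3
  have hmain : ∀ y, y + w + 1 ≤ R → (Exact μ R N κ x y ∧ ∀ z < y, R ≤ z + 1 + μ →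
      (R - 1 - z) + 24 * l * (N - 1 - κ z) ≤ 24 * l * oo μ R κ x z) ∨
      ∃ r, Fi μ R N κ x r := by
    intro y
    induction y with
    | zero =>
      intro _
      rcases Nat.lt_or_ge (κ 0) N with h | h
      · left
        refine ⟨⟨by omega, h, fun z hz => ?_⟩, fun z hz => by omega⟩
        rw [Nat.le_zero.1 hz, hg.1]
      · right
        exact ⟨0, by omega, le_antisymm (hp.le 0 (by omega)) h, fun z hz => by omega,
          by rw [hg.1]⟩
    | succ y ih =>
      intro hy
      rcases ih (by omega) with ⟨hex, hih⟩ | h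
      swap
      · exact Or.inr h
      rcases Nat.lt_or_ge (y + 1 + μ) R with hz | hz
      · -- before the zone
        have hbb : bb μ R N κ x y ≤ y + 2 := by
          obtain ⟨hyR, hκN, hlz⟩ := hex
          have e1 := (h4 μ R N κ x hμ hR hp y (by omega)).2.2.2.1 hκN
          have e2 : na μ R (y + 1) = 0 := by unfold na; omega
          have e3 : nx μ R x y ≤ x y + 1 := by
            unfold nx
            split_ifs
            · exact le_rfl
            · rw [e2]; omega
          rw [hlz y le_rfl, e2, Nat.mul_zero, Nat.add_zero] at e1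
          omega
        rcases step hp hg (by omega) hex hbb with h | h
        · left
          exact ⟨h, fun z hz' hz'' => by omega⟩
        · exact Or.inr ⟨_, h⟩
      · have hz10 := (h10 μ R N l L y κ x (hzon y (by omega) hz hex hih)).1
        have hoo : N - 1 - κ y ≤ oo μ R κ x y := by
          have e1 : 24 * l * (N - 1 - κ y) ≤ 24 * l * oo μ R κ x y := by omega
          exact Nat.le_of_mul_le_mul_left e1 (by omega)
        have hbb := bb_zone h4 hμ hR hp (show y + 1 < R by omega) hz hex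
        rcases step hp hg (by omega) hex (by omega) with h | h
        · left
          refine ⟨h, fun z hz' hz'' => ?_⟩
          rcases Nat.lt_or_ge z y with h' | h'
          · exact hih z h' hz''
          · have : z = y := by omega
            rw [this]
            exact hz10
        · exact Or.inr ⟨_, h⟩
  rcases hmain (R - 1 - w) (by omega) with ⟨hex, hih⟩ | h
  swap
  · exact Or.inl (hfirst h)
  have hZ := hzon (R - 1 - w) (by omega) (by omega) hex hih
  obtain ⟨y, hy⟩ : ∃ y, y = R - 1 - w := ⟨_, rfl⟩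
  rw [← hy] at hex hih hZ
  have hyw : R - 1 - y = w := by omega
  have hz10 := (h10 μ R N l L y κ x hZ).2
  rw [hyw] at hz10
  obtain ⟨hac, hk, hPn⟩ := hz10 hwμ
  have hPn' : (l : ℤ) * Pn μ R x y ≤ 151 * μ + 3627 * l * w * L := by exact_mod_cast hPn
  have hlz : (0 : ℤ) < l := by exact_mod_cast hl
  have hw0z : (1500000 : ℤ) * l ≤ w := by exact_mod_cast hw0
  have hL1z : (1 : ℤ) ≤ L := by exact_mod_cast hL1
  have hμz : (1 : ℤ) ≤ μ := by exact_mod_cast hμ
  have hwz : (0 : ℤ) < w := by linarith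
  have hlw : (l : ℤ) * w ≤ l * w * L := by
    have : (0 : ℤ) ≤ l * w := by positivity
    nlinarith
  -- the estimate
  have hest : (l : ℤ) * (Pn μ R x y + 24 * l + 5 * w + 2) < 200 * μ + 3700 * l * w * L := by
    have c1 : (l : ℤ) * l * 1500000 ≤ l * w := by nlinarith
    have c2 : (l : ℤ) ≤ l * l := by nlinarith
    have c3 : (0 : ℤ) < l * w := by positivity
    nlinarith
  have hest2 : (w : ℤ) * (Pn μ R x y + 24 * l + 5 * w + 2) < |(T R : ℤ) - N * T μ| := by
    have c1 : (w : ℤ) * (l * (Pn μ R x y + 24 * l + 5 * w + 2)) <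
        w * (200 * μ + 3700 * l * w * L) := mul_lt_mul_of_pos_left hest hwz
    have c2 : (l : ℤ) * (w * (Pn μ R x y + 24 * l + 5 * w + 2)) <
        l * |(T R : ℤ) - N * T μ| := by
      have := lt_of_lt_of_le c1 hw4
      linarith
    exact lt_of_mul_lt_mul_left c2 hlz.le
  rcases le_or_gt 0 ((T R : ℤ) - N * T μ) with h | h
  · left
    rw [abs_of_nonneg h] at hest2
    have e1 : N * T μ + (R - 1 - y) * (Pn μ R x y + 24 * l + 5 * (R - 1 - y) + 2) < T R := by
      rw [hyw]
      have : (N : ℤ) * T μ + w * (Pn μ R x y + 24 * l + 5 * w + 2) < T R := by linarith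
      exact_mod_cast this
    refine ⟨by
      have : (N : ℤ) * T μ ≤ T R := by linarith
      exact_mod_cast this, ?_⟩
    exact h11 μ R N (24 * l) κ x y hμ hR hp hg hex (by omega) (by omega) hac hk e1
  · right
    rw [abs_of_neg h] at hest2
    have e1 : T R + (R - 1 - y) * (Pn μ R x y + 2 * (R - 1 - y)) < N * T μ := by
      rw [hyw]
      have c1 : (w : ℤ) * (Pn μ R x y + 2 * w) ≤ w * (Pn μ R x y + 24 * l + 5 * w + 2) := by
        refine mul_le_mul_of_nonneg_left ?_ hwz.le
        linarith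
      have : (T R : ℤ) + w * (Pn μ R x y + 2 * w) < N * T μ := by linarith
      exact_mod_cast this
    refine ⟨by
      have : (T R : ℤ) ≤ N * T μ := by linarith
      exact_mod_cast this, ?_⟩
    exact h12 μ R N κ x y hμ hR hp hg hex (by omega) (by omega) e1

end Pool.Agent.Helper43.Hw.PkH15
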