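import Pool.Agent.Helper43.Hw.Goals

/-! Packet H2 (MP_d3128a_ag, helper43): what one point gives. -/

set_option autoImplicit false

namespace Pool.Agent.Helper43.Hw.PkH2

open Finset
open Pool.Agent.Helper43.Gm (st mv nn Run Pri)

variable {μ R N : ℕ} {κ x : ℕ → ℕ}

theorem va_lt {c z : ℕ} (h : κ z < c) : va μ R κ x c z = na μ R z := by
  unfold va
  rw [if_pos h]

theorem va_eq {c z : ℕ} (h : κ z = c) : va μ R κ x c z = x z := by
  unfold va nn
  rw [if_neg (by omega), if_neg (by omega), if_pos h]

theorem sum_na (hR : μ ≤ R) (a : ℕ) : ∑ z ∈ range a, na μ R z = T (a + μ - R) := by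
  induction a with
  | zero =>
    rw [range_zero, sum_empty, show 0 + μ - R = 0 by omega, T_zero]
  | succ a ih =>
    rw [sum_range_succ, ih]
    unfold na
    rcases le_or_gt R (a + μ) with h | h
    · have e1 : a + 1 + μ - R = (a + μ - R) + 1 := by omega
      rw [e1, T_succ]
      omega
    · have e1 : a + 1 + μ - R = 0 := by omega
      have e2 : a + μ - R = 0 := by omega
      rw [e1, e2, T_zero]
      omega

theorem kmono (hp : Play μ R N κ x) {y z : ℕ} (hyz : y ≤ z) (hz : z < R) : κ y ≤ κ z := by
  induction z with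
  | zero => rw [Nat.le_zero.1 hyz]
  | succ z ih =>
    rcases Nat.lt_or_ge y (z + 1) with h | h
    · exact (ih (by omega) (by omega)).trans (hp.mono z hz)
    · rw [le_antisymm hyz h]

/-- `x` grows at least by one in each moving row. -/
theorem xinc (h2 : ∀ c, ∀ t < R, (κ t = c ∧ 0 < x t) ↔ (ac R κ x c ≤ t ∧ t < sc R κ c))
    (hp : Play μ R N κ x) {c t t' : ℕ} (ht : ac R κ x c ≤ t) (htt : t ≤ t') (ht' : t' < sc R κ c)
    (hR : t' < R) : x t + (t' - t) ≤ x t' := by
  induction t' with
  | zero =>
    have : t = 0 := by omega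
    rw [this]; omega
  | succ t' ih =>
    rcases Nat.lt_or_ge t (t' + 1) with h | h
    · have e1 := ih (by omega) (by omega) (by omega)
      obtain ⟨f1, f2⟩ := (h2 c t' (by omega)).2 ⟨by omega, by omega⟩
      obtain ⟨g1, g2⟩ := (h2 c (t' + 1) hR).2 ⟨by omega, ht'⟩
      have e2 := hp.inc t' hR f2 (by omega)
      omega
    · have : t = t' + 1 := by omega
      rw [this]; omega

theorem main (hμ : 1 ≤ μ) (hR : μ + 2 ≤ R) (hp : Play μ R N κ x)
    (h2 : ∀ c, ∀ t < R, (κ t = c ∧ 0 < x t) ↔ (ac R κ x c ≤ t ∧ t < sc R κ c))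
    (h5 : ∀ c t, ac R κ x c ≤ t → t < sc R κ c →
      (sc R κ c < R → x t + sc R κ c ≤ μ + t) ∧ R ≤ U μ R x t + ac R κ x c + μ)
    (h6 : ∀ y < R, ∀ c < κ y, st κ c y = sc R κ c ∧ sc R κ c ≤ y ∧
      ac R κ x c + μ ≤ va μ R κ x c y + y ∧ (0 < va μ R κ x c y ↔ y < ac R κ x c + μ))
    (h7 : ∀ y, y + 1 < R → ∀ c < κ y,
      (0 < va μ R κ x c y → va μ R κ x c (y + 1) + 1 +
        ((range y).filter (fun t => κ t = c ∧ 0 < x t ∧ μ + t = x t + y)).card =
          va μ R κ x c y) ∧
      (va μ R κ x c y = 0 → va μ R κ x c (y + 1) = 0 ∧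
        ((range y).filter (fun t => κ t = c ∧ 0 < x t ∧ μ + t = x t + y)).card = 0)) :
    (∀ y < R, ∀ c < κ y, va μ R κ x c y = 0 → ∑ z ∈ Ico y R, va μ R κ x c z = 0) ∧
    ∀ d y, R = y + 1 + d → ∀ c < κ y, y ≤ ac R κ x c + μ →
    ∑ z ∈ Ico y R, va μ R κ x c z + T (R - 1 - y) +
      ∑ t ∈ (range y).filter (fun t => κ t = c ∧ 0 < x t ∧ U μ R x t ≤ R - 1 - y), U μ R x t =
    (R - y) * va μ R κ x c y + T (R - 1 - μ - ac R κ x c) := by
  have hz : ∀ d y, R = y + 1 + d → ∀ c < κ y, va μ R κ x c y = 0 →
      ∑ z ∈ Ico y R, va μ R κ x c z = 0 := by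
    intro d
    induction d with
    | zero =>
      intro y hy c hc h0
      have e1 : Ico y R = {y} := by
        ext z; simp only [mem_Ico, mem_singleton]; omega
      rw [e1, sum_singleton, h0]
    | succ d ih =>
      intro y hy c hc h0
      rw [Finset.sum_eq_sum_Ico_succ_bot (by omega), h0, zero_add]
      exact ih (y + 1) (by omega) c (lt_of_lt_of_le hc (hp.mono y (by omega)))
        ((h7 y (by omega) c hc).2 h0).1
  refine ⟨fun y hy c hc h0 => hz (R - 1 - y) y (by omega) c hc h0, ?_⟩
  intro d
  induction d with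
  | zero =>
    intro y hy c hc hac
    have e1 : Ico y R = {y} := by
      ext z; simp only [mem_Ico, mem_singleton]; omega
    have e2 : R - 1 - y = 0 := by omega
    have e3 : R - 1 - μ - ac R κ x c = 0 := by omega
    have e4 : R - y = 1 := by omega
    rw [e1, sum_singleton, e2, e3, e4, one_mul]
    have e5 : ∑ t ∈ (range y).filter (fun t => κ t = c ∧ 0 < x t ∧ U μ R x t ≤ 0), U μ R x t =
        0 := by
      refine Finset.sum_eq_zero fun t ht => ?_
      simp only [mem_filter] at ht
      omega
    rw [e5]
    omega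
  | succ d ih =>
    intro y hy c hc hac
    rcases Nat.lt_or_ge y (ac R κ x c + μ) with hlt | hge
    · have hpos := (h6 y (by omega) c hc).2.2.2.2 hlt
      have hv := (h7 y (by omega) c hc).1 hpos
      have hc1 : c < κ (y + 1) := lt_of_lt_of_le hc (hp.mono y (by omega))
      have hih := ih (y + 1) (by omega) c hc1 (by omega)
      have e2 : R - 1 - y = d + 1 := by omega
      have e2' : R - 1 - (y + 1) = d := by omega
      have e3 : R - y = d + 2 := by omega
      have e3' : R - (y + 1) = d + 1 := by omega
      rw [e2', e3'] at hih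
      rw [e2, e3, Finset.sum_eq_sum_Ico_succ_bot (by omega), T_succ]
      -- the filters
      have f1 : (range (y + 1)).filter (fun t => κ t = c ∧ 0 < x t ∧ U μ R x t ≤ d) =
          (range y).filter (fun t => κ t = c ∧ 0 < x t ∧ U μ R x t ≤ d) := by
        ext t
        simp only [mem_filter, mem_range]
        constructor
        · rintro ⟨h, h', h''⟩
          refine ⟨?_, h', h''⟩
          rcases Nat.lt_or_ge t y with q | q
          · exact q
          · have : t = y := by omega
            rw [this] at h'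
            omega
        · rintro ⟨h, h'⟩
          exact ⟨by omega, h'⟩
      have f2 : ∑ t ∈ (range y).filter (fun t => κ t = c ∧ 0 < x t ∧ U μ R x t ≤ d + 1),
          U μ R x t =
          ∑ t ∈ (range y).filter (fun t => κ t = c ∧ 0 < x t ∧ U μ R x t ≤ d), U μ R x t +
          (d + 1) * ((range y).filter (fun t => κ t = c ∧ 0 < x t ∧ μ + t = x t + y)).card := by
        have g1 : (range y).filter (fun t => κ t = c ∧ 0 < x t ∧ U μ R x t ≤ d + 1) =
            (range y).filter (fun t => κ t = c ∧ 0 < x t ∧ U μ R x t ≤ d) ∪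
            (range y).filter (fun t => κ t = c ∧ 0 < x t ∧ μ + t = x t + y) := by
          ext t
          simp only [mem_filter, mem_union, mem_range, U]
          constructor
          · rintro ⟨a1, a2, a3, a4⟩
            by_cases h : R + x t - (t + 1 + μ) ≤ d
            · exact Or.inl ⟨a1, a2, a3, h⟩
            · exact Or.inr ⟨a1, a2, a3, by omega⟩
          · rintro (⟨a1, a2, a3, a4⟩ | ⟨a1, a2, a3, a4⟩)
            · exact ⟨a1, a2, a3, by omega⟩
            · exact ⟨a1, a2, a3, by omega⟩
        rw [g1, Finset.sum_union]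
        · congr 1
          rw [Finset.sum_const_nat (m := d + 1)]
          · ring
          · intro t ht
            simp only [mem_filter, mem_range] at ht
            unfold U
            omega
        · rw [Finset.disjoint_left]
          intro t ht ht'
          simp only [mem_filter, mem_range, U] at ht ht'
          omega
      rw [f1] at hih
      rw [f2]
      set S1 := ∑ t ∈ (range y).filter (fun t => κ t = c ∧ 0 < x t ∧ U μ R x t ≤ d), U μ R x t
      set E := ((range y).filter (fun t => κ t = c ∧ 0 < x t ∧ μ + t = x t + y)).card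
      rw [← hv]
      nlinarith [hih]
    · have hya : y = ac R κ x c + μ := le_antisymm hac hge
      have h0 : va μ R κ x c y = 0 := by
        by_contra h
        have := (h6 y (by omega) c hc).2.2.2.1 (Nat.pos_of_ne_zero h)
        omega
      rw [hz (d + 1) y hy c hc h0, h0, mul_zero, zero_add, zero_add]
      have e1 : (range y).filter (fun t => κ t = c ∧ 0 < x t ∧ U μ R x t ≤ R - 1 - y) = ∅ := by
        rw [Finset.filter_eq_empty_iff]
        rintro t ht ⟨a1, a2, a3⟩
        rw [mem_range] at ht
        obtain ⟨b1, b2⟩ := (h2 c t (by omega)).1 ⟨a1, a2⟩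
        have := (h5 c t b1 b2).2
        omega
      rw [e1, sum_empty, add_zero, hya]
      congr 1
      omega

theorem goalH2 (h1 : GoalH1) : GoalH2 := by
  intro μ R N κ x hμ hR hp
  obtain ⟨g1, g2, g3, g4, g5, g6, g7⟩ := h1 μ R N κ x hμ hR hp
  obtain ⟨m1, m2⟩ := main hμ hR hp g2 g5 g6 g7
  have p1 : ∀ y < R, ∀ c < κ y, 0 < va μ R κ x c y →
    ∑ z ∈ Ico y R, va μ R κ x c z + T (R - 1 - y) +
      ∑ t ∈ (range y).filter (fun t => κ t = c ∧ 0 < x t ∧ U μ R x t ≤ R - 1 - y), U μ R x t =
    (R - y) * va μ R κ x c y + T (R - 1 - μ - ac R κ x c) := by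
    intro y hy c hc hpos
    exact m2 (R - 1 - y) y (by omega) c hc ((g6 y hy c hc).2.2.2.1 hpos).le
  have p3 : ∀ c < N, ∑ z ∈ range R, va μ R κ x c z = T μ := by
    intro c hc
    have hlo : ∀ z, z < R → z < ac R κ x c → va μ R κ x c z = na μ R z := by
      intro z hzR hz
      have e1 := ((g1 c z hzR).2).2 hz
      unfold aa at e1
      rcases Nat.lt_or_ge (κ z) c with h | h
      · exact va_lt h
      · have h' : κ z = c := by omega
        have hx : x z = 0 := by
          by_contra hx
          rw [if_pos (Nat.pos_of_ne_zero hx)] at e1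
          omega
        rw [va_eq h', hx]
        have := hp.nat z hzR (by omega)
        omega
    have hmid : ∀ t, t < R → ac R κ x c ≤ t → t < sc R κ c → va μ R κ x c t = x t := by
      intro t htR h h'
      exact va_eq ((g2 c t htR).2 ⟨h, h'⟩).1
    have hscR : sc R κ c ≤ R := by
      unfold sc
      exact (card_filter_le _ _).trans (by simp)
    rcases Nat.lt_or_ge (sc R κ c) R with hs | hs
    · -- the point becomes old
      set s := sc R κ c with hsdef
      set a := ac R κ x c with hadef
      have has : a ≤ s := g3 c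
      have hcs : c < κ s := by
        by_contra h
        have := ((g1 c s hs).1).1 (by omega)
        omega
      have hvs : va μ R κ x c s = μ := g4 c hs
      have q1 := p1 s hs c hcs (by omega)
      rw [hvs] at q1
      have f1 : (range s).filter (fun t => κ t = c ∧ 0 < x t ∧ U μ R x t ≤ R - 1 - s) =
          Ico a s := by
        ext t
        simp only [mem_filter, mem_range, mem_Ico]
        constructor
        · rintro ⟨b1, b2, b3, b4⟩
          exact (g2 c t (by omega)).1 ⟨b2, b3⟩
        · rintro ⟨b1, b2⟩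
          obtain ⟨b3, b4⟩ := (g2 c t (by omega)).2 ⟨b1, b2⟩
          have b5 := (g5 c t b1 b2).1 hs
          refine ⟨b2, b3, b4, ?_⟩
          unfold U
          omega
      rw [f1] at q1
      have e1 : ∑ z ∈ range R, va μ R κ x c z = ∑ z ∈ range a, va μ R κ x c z +
          ∑ z ∈ Ico a s, va μ R κ x c z + ∑ z ∈ Ico s R, va μ R κ x c z := by
        rw [Finset.range_eq_Ico, Finset.range_eq_Ico, Finset.sum_Ico_consecutive _ (by omega) has,
          Finset.sum_Ico_consecutive _ (by omega) hs.le]
      have e2 : ∑ z ∈ range a, va μ R κ x c z = T (a + μ - R) := by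
        rw [← sum_na (by omega) a]
        refine Finset.sum_congr rfl fun z hz => ?_
        rw [mem_range] at hz
        exact hlo z (by omega) hz
      have e3 : ∑ z ∈ Ico a s, va μ R κ x c z = ∑ z ∈ Ico a s, x z := by
        refine Finset.sum_congr rfl fun z hz => ?_
        rw [mem_Ico] at hz
        exact hmid z (by omega) hz.1 hz.2
      -- the telescoping sum
      have e4 : ∀ b, a ≤ b → b ≤ s → 2 * (∑ t ∈ Ico a b, (x t : ℤ)) =
          2 * (∑ t ∈ Ico a b, (U μ R x t : ℤ)) + ((b : ℤ) + μ - R) * ((b : ℤ) + μ - R + 1) -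
            ((a : ℤ) + μ - R) * ((a : ℤ) + μ - R + 1) := by
        intro b hab
        induction b, hab using Nat.le_induction with
        | base => intro _; simp
        | succ b hab ih =>
          intro hb
          have ih' := ih (by omega)
          rw [Finset.sum_Ico_succ_top hab, Finset.sum_Ico_succ_top hab]
          obtain ⟨b3, b4⟩ := (g2 c b (by omega)).2 ⟨hab, by omega⟩
          have b5 := hp.nat b (by omega) (by omega)
          have b6 : (x b : ℤ) = U μ R x b + (b + 1 + μ - R) := by
            unfold na at b5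
            unfold U
            omega
          push_cast
          rw [b6]

          linarith [ih']
      have e5 := e4 s has le_rfl
      have e6 : (2 * (T (a + μ - R) + T (R - 1 - μ - a)) : ℤ) =
          ((a : ℤ) + μ - R) * ((a : ℤ) + μ - R + 1) := by
        have t1 := two_T (a + μ - R)
        have t2 := two_T (R - 1 - μ - a)
        rcases le_or_gt R (a + μ) with h | h
        · have k1 : R - 1 - μ - a = 0 := by omega
          rw [k1] at t2 ⊢
          rw [T_zero]
          have k2 : ((a + μ - R : ℕ) : ℤ) = (a : ℤ) + μ - R := by omega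
          have t1' : (2 : ℤ) * T (a + μ - R) = ((a + μ - R : ℕ) : ℤ) * ((a + μ - R : ℕ) + 1) := by
            exact_mod_cast t1
          rw [k2] at t1'
          push_cast
          linarith
        · have k1 : a + μ - R = 0 := by omega
          rw [k1, T_zero]
          have k2 : ((R - 1 - μ - a : ℕ) : ℤ) = -((a : ℤ) + μ - R) - 1 := by omega
          have t2' : (2 : ℤ) * T (R - 1 - μ - a) =
              ((R - 1 - μ - a : ℕ) : ℤ) * ((R - 1 - μ - a : ℕ) + 1) := by
            exact_mod_cast t2
          rw [k2] at t2'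
          push_cast
          nlinarith
      have q1' : (∑ z ∈ Ico s R, (va μ R κ x c z : ℤ)) + T (R - 1 - s) +
          ∑ t ∈ Ico a s, (U μ R x t : ℤ) = (R - s : ℕ) * μ + T (R - 1 - μ - a) := by
        exact_mod_cast q1
      have t3 : (2 : ℤ) * T (R - 1 - s) = ((R : ℤ) - 1 - s) * (R - s) := by
        have t3' := two_T (R - 1 - s)
        have k2 : ((R - 1 - s : ℕ) : ℤ) = (R : ℤ) - 1 - s := by omega
        have t3'' : (2 : ℤ) * T (R - 1 - s) = ((R - 1 - s : ℕ) : ℤ) * ((R - 1 - s : ℕ) + 1) := by
          exact_mod_cast t3'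
        rw [k2] at t3''
        linarith
      have t4 : (2 : ℤ) * T μ = μ * (μ + 1) := by
        exact_mod_cast two_T μ
      have k3 : ((R - s : ℕ) : ℤ) = (R : ℤ) - s := by omega
      rw [k3] at q1'
      have goal' : (∑ z ∈ range R, (va μ R κ x c z : ℤ)) = T μ := by
        have e1' : (∑ z ∈ range R, (va μ R κ x c z : ℤ)) = T (a + μ - R) +
            ∑ z ∈ Ico a s, (x z : ℤ) + ∑ z ∈ Ico s R, (va μ R κ x c z : ℤ) := by
          have := e1
          rw [e2, e3] at this
          exact_mod_cast this
        rw [e1']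
        have : (2 : ℤ) * (T (a + μ - R) + ∑ z ∈ Ico a s, (x z : ℤ) +
            ∑ z ∈ Ico s R, (va μ R κ x c z : ℤ)) = 2 * T μ := by
          nlinarith [e5, e6, q1', t3, t4]
        linarith
      exact_mod_cast goal'
    · -- never old
      have hs' : sc R κ c = R := le_antisymm hscR hs
      rw [show T μ = T (R + μ - R) by congr 1; omega, ← sum_na (by omega) R]
      refine Finset.sum_congr rfl fun z hz => ?_
      rw [mem_range] at hz
      rcases Nat.lt_or_ge z (ac R κ x c) with h | h
      · exact hlo z hz h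
      · rw [hmid z hz h (by omega)]
        obtain ⟨b3, b4⟩ := (g2 c (R - 1) (by omega)).2 ⟨by omega, by omega⟩
        have b5 := hp.lastx (by omega)
        have b6 := xinc g2 hp h (show z ≤ R - 1 by omega) (by omega) (by omega)
        have b7 := hp.nat z hz (by
          have := (g2 c z hz).2 ⟨h, by omega⟩
          omega)
        unfold na at b7 ⊢
        omega
  refine ⟨p1, m1, p3, ?_⟩
  unfold lz
  rw [Finset.sum_comm, Finset.sum_congr rfl fun c hc => p3 c (mem_range.1 hc), sum_const,
    card_range, smul_eq_mul]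

end Pool.Agent.Helper43.Hw.PkH2
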